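import Pool.Agent.Lib.MP_f10cd3_gt.U.Defs

/-! Row U5: the covering in the sense of `IsCover`. -/

set_option autoImplicit false

namespace F10U

open MPf10cd3 F10G F10S

variable {M : Type} [MetricSpace M] {ε : ℝ} {X : Type} [MetricSpace X] {p : X → M}
  {ext : X → M → X} {b : X}

/-- the lift of the chain `g (i / n)` -/
noncomputable def U5y (ext : X → M → X) (g : ℝ → M) (n : ℕ) (x : X) : ℕ → X
  | 0 => x
  | i + 1 => ext (U5y ext g n x i) (g (((i : ℝ) + 1) / n))

/-- a geodesic of `M` from `p x` to `a` lifts: `d(x, y) = d(p x, a)`; chain with small steps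
(`chain_small`) -/
theorem exists_over (hG : IsGeod M) (hε : 0 < ε) (h : IsCov ε p ext) (hm : IsUMet ε p ext)
    (x : X) (a : M) : ∃ y, p y = a ∧ dist x y = dist (p x) a := by
  obtain ⟨g, g0, g1, hg⟩ := hG (p x) a
  obtain ⟨n, hn⟩ := exists_nat_gt (dist (p x) a / ε)
  have hn0 : (0 : ℝ) < n := (div_nonneg dist_nonneg hε.le).trans_lt hn
  have hn1 : n ≠ 0 := fun h0 => by simp [h0] at hn0
  rw [div_lt_iff₀ hε] at hn
  have key : ∀ i : ℕ, i ≤ n → p (U5y ext g n x i) = g (i / n) ∧
      dist x (U5y ext g n x i) ≤ dist (p x) a * (i / n) := by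
    intro i
    induction i with
    | zero =>
      intro _
      simp [U5y, g0]
    | succ i ih =>
      intro hi
      obtain ⟨ih1, ih2⟩ := ih (by omega)
      have hi' : (i : ℝ) + 1 ≤ n := by exact_mod_cast hi
      have hd : dist (p (U5y ext g n x i)) (g (((i : ℝ) + 1) / n)) = dist (p x) a * (1 / n) := by
        rw [ih1, hg _ ⟨by positivity, by rw [div_le_one hn0]; linarith⟩ _
          ⟨by positivity, by rw [div_le_one hn0]; exact hi'⟩]
        congr 1
        rw [← sub_div, show (i : ℝ) - (i + 1) = -1 by ring, neg_div, abs_neg,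
          abs_of_pos (by positivity)]
      have hlt : dist (p (U5y ext g n x i)) (g (((i : ℝ) + 1) / n)) < ε := by
        rw [hd, mul_one_div, div_lt_iff₀ hn0]
        linarith
      have h1 := h.p_ext _ _ hlt
      have h2 := hm.ext_dist _ _ hlt
      refine ⟨by simpa [U5y] using h1, ?_⟩
      calc dist x (U5y ext g n x (i + 1)) ≤ dist x (U5y ext g n x i) +
            dist (U5y ext g n x i) (U5y ext g n x (i + 1)) := dist_triangle _ _ _
        _ ≤ dist (p x) a * (i / n) + dist (p x) a * (1 / n) := by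
            refine add_le_add ih2 (le_of_eq ?_)
            rw [← hd, ← h2]
            rfl
        _ = dist (p x) a * ((i + 1 : ℕ) / n) := by
            push_cast
            ring
  obtain ⟨k1, k2⟩ := key n le_rfl
  rw [div_self hn0.ne'] at k1 k2
  rw [g1] at k1
  refine ⟨_, k1, le_antisymm (by linarith) ?_⟩
  have := hm.le x (U5y ext g n x n)
  rwa [k1] at this

theorem cover_X (hG : IsGeod M) (hε : 0 < ε) (h : IsUniv ε p ext b) (hm : IsUMet ε p ext)
    {Γ : Type} [Group Γ] [MulAction Γ X] (h1 : ∀ (γ : Γ) (x : X), p (γ • x) = p x)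
    (h2 : ∀ (γ : Γ) (x : X) (a : M), dist (p x) a < ε → γ • ext x a = ext (γ • x) a)
    (h3 : ∀ (γ : Γ) (x : X), γ • x = x → γ = 1)
    (h4 : ∀ x y : X, p x = p y → ∃ γ : Γ, γ • x = y) : IsCover Γ p := by
  have hle : ∀ (γ : Γ) (x y : X), dist (γ • x) (γ • y) ≤ dist x y := fun γ x y =>
    hm.inv (fun x => γ • x) (h1 γ) (fun x a hxa => h2 γ x a hxa) x y
  refine ⟨fun a => ?_, fun γ x y => le_antisymm (hle γ x y) ?_, h1, hm.le, fun x y => ?_,
    ε, hε, fun γ hγ x => ?_⟩
  · obtain ⟨y, hy, -⟩ := exists_over hG hε h.cov hm b a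
    exact ⟨y, hy⟩
  · have := hle γ⁻¹ (γ • x) (γ • y)
    rwa [inv_smul_smul, inv_smul_smul] at this
  · obtain ⟨y', hy, hd⟩ := exists_over hG hε h.cov hm x (p y)
    obtain ⟨γ, hγ⟩ := h4 y y' hy.symm
    exact ⟨γ, by rw [hγ]; exact hd⟩
  · by_contra hlt
    push Not at hlt
    have hd := (hm.near _ _ hlt).2
    rw [h1, dist_self] at hd
    exact hγ (h3 γ x (dist_eq_zero.1 hd).symm)

end F10U
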