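import Pool.Agent.Lib.MP_f10cd3_gt.U.Defs

/-! Row U2: deck transformations. -/

set_option autoImplicit false

namespace F10U

open MPf10cd3 F10G F10S

variable {M : Type} [MetricSpace M] {ε : ℝ} {X : Type} {p : X → M} {ext : X → M → X} {b : X}

/-- for `w` over `p x` there is a morphism `X → X` which maps `x` to `w`: induction on `x`; for
`x = ext x' a` apply the induction hypothesis to `ext w (p x')` -/
theorem exists_mor (hε : 0 < ε) (h : IsUniv ε p ext b) (x w : X) (hw : p w = p x) :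
    ∃ Ψ : X → X, Ψ x = w ∧ (∀ y, p (Ψ y) = p y) ∧
      ∀ y a, dist (p y) a < ε → Ψ (ext y a) = ext (Ψ y) a := by
  refine h.ind (fun x => ∀ w, p w = p x → ∃ Ψ : X → X, Ψ x = w ∧ (∀ y, p (Ψ y) = p y) ∧
      ∀ y a, dist (p y) a < ε → Ψ (ext y a) = ext (Ψ y) a) ?_ ?_ x w hw
  · intro w hw
    exact h.up X p ext h.cov w hw
  · intro x a ha ih w hw
    rw [h.cov.p_ext x a ha] at hw
    have h1 : dist (p w) (p x) < ε := by rwa [hw, dist_comm]
    obtain ⟨Ψ, h2, h3, h4⟩ := ih (ext w (p x)) (h.cov.p_ext w (p x) h1)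
    refine ⟨Ψ, ?_, h3, h4⟩
    have h5 : dist (p w) a < ε := by rw [hw, dist_self]; exact hε
    rw [h4 x a ha, h2, h.cov.tri w (p x) a h1 ha h5, ← hw, h.cov.stay]

/-- a morphism with a fixed point is the identity -/
theorem mor_id (hε : 0 < ε) (h : IsUniv ε p ext b) {Ψ : X → X} (h1 : ∀ y, p (Ψ y) = p y)
    (h2 : ∀ y a, dist (p y) a < ε → Ψ (ext y a) = ext (Ψ y) a) {x : X} (hx : Ψ x = x) :
    ∀ y, Ψ y = y := by
  have hb : Ψ b = b := by
    refine h.ind (fun y => Ψ y = y → Ψ b = b) (fun h => h) ?_ x hx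
    intro y a ha ih h3
    apply ih
    have h4 : dist a (p y) < ε := by rwa [dist_comm]
    have h5 : dist (p y) (p y) < ε := by rw [dist_self]; exact hε
    have h6 : ext (ext y a) (p y) = y := by
      rw [h.cov.tri y a (p y) ha h4 h5, h.cov.stay]
    have h7 : dist (p (ext y a)) (p y) < ε := by rwa [h.cov.p_ext y a ha]
    calc Ψ y = Ψ (ext (ext y a) (p y)) := by rw [h6]
      _ = ext (Ψ (ext y a)) (p y) := h2 _ _ h7
      _ = y := by rw [h3, h6]
  intro y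
  refine h.ind (fun y => Ψ y = y) hb ?_ y
  intro y a ha h3
  rw [h2 y a ha, h3]

/-- `Γ` = the subgroup of `Equiv.Perm X` of the bijective morphisms -/
theorem exists_deck (hε : 0 < ε) (h : IsUniv ε p ext b) :
    ∃ (Γ : Type) (_ : Group Γ) (_ : MulAction Γ X), (∀ (γ : Γ) (x : X), p (γ • x) = p x) ∧
      (∀ (γ : Γ) (x : X) (a : M), dist (p x) a < ε → γ • ext x a = ext (γ • x) a) ∧
      (∀ (γ : Γ) (x : X), γ • x = x → γ = 1) ∧ ∀ x y : X, p x = p y → ∃ γ : Γ, γ • x = y := by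
  let S : Subgroup (Equiv.Perm X) :=
    { carrier := {σ | (∀ y, p (σ y) = p y) ∧
        ∀ y a, dist (p y) a < ε → σ (ext y a) = ext (σ y) a}
      mul_mem' := by
        rintro σ τ ⟨h1, h2⟩ ⟨h3, h4⟩
        refine ⟨fun y => ?_, fun y a ha => ?_⟩
        · rw [Equiv.Perm.mul_apply, h1, h3]
        · rw [Equiv.Perm.mul_apply, Equiv.Perm.mul_apply, h4 y a ha,
            h2 (τ y) a (by rwa [h3])]
      one_mem' := ⟨fun _ => rfl, fun _ _ _ => rfl⟩
      inv_mem' := by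
        rintro σ ⟨h1, h2⟩
        have hai : ∀ y, σ (σ⁻¹ y) = y := fun y => σ.apply_symm_apply y
        have h3 : ∀ y, p (σ⁻¹ y) = p y := fun y => by
          rw [← h1 (σ⁻¹ y), hai]
        refine ⟨h3, fun y a ha => ?_⟩
        apply σ.injective
        rw [hai, h2 (σ⁻¹ y) a (by rwa [h3]), hai] }
  refine ⟨S, inferInstance, inferInstance, ?_, ?_, ?_, ?_⟩
  · intro γ x
    exact γ.2.1 x
  · intro γ x a ha
    exact γ.2.2 x a ha
  · intro γ x hx
    apply Subtype.ext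
    apply Equiv.ext
    intro y
    exact mor_id hε h γ.2.1 γ.2.2 hx y
  · intro x y hxy
    obtain ⟨Ψ, h1, h2, h3⟩ := exists_mor hε h x y hxy.symm
    obtain ⟨Φ, h4, h5, h6⟩ := exists_mor hε h y x hxy
    have h7 : ∀ z, Φ (Ψ z) = z := by
      refine mor_id (Ψ := fun z => Φ (Ψ z)) hε h (fun z => ?_) (fun z a ha => ?_) (x := x) ?_
      · rw [h5, h2]
      · show Φ (Ψ (ext z a)) = ext (Φ (Ψ z)) a
        rw [h3 z a ha, h6 (Ψ z) a (by rwa [h2])]
      · show Φ (Ψ x) = x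
        rw [h1, h4]
    have h8 : ∀ z, Ψ (Φ z) = z := by
      refine mor_id (Ψ := fun z => Ψ (Φ z)) hε h (fun z => ?_) (fun z a ha => ?_) (x := y) ?_
      · rw [h2, h5]
      · show Ψ (Φ (ext z a)) = ext (Ψ (Φ z)) a
        rw [h6 z a ha, h3 (Φ z) a (by rwa [h5])]
      · show Ψ (Φ y) = y
        rw [h4, h1]
    exact ⟨⟨⟨Ψ, Φ, h7, h8⟩, h2, h3⟩, h1⟩

end F10U
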