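import Pool.Agent.Lib.MP_f10cd3_gt.U.Lad
import Pool.Agent.Lib.MP_f10cd3_gt.U.Deck

/-! Row U6: the covering is coarsely simply connected. -/

set_option autoImplicit false

namespace F10U

section U6a
open MPf10cd3 F10G F10S

variable {M : Type} [MetricSpace M] {ε : ℝ} {X : Type} [MetricSpace X] {p : X → M}
  {ext : X → M → X} {b : X}

/-- a chain with small steps along a geodesic -/
private theorem U6a_chain (hG : IsGeod M) (a a' : M) {δ : ℝ} (hδ : 0 < δ) :
    ∃ (n : ℕ) (z : ℕ → M), z 0 = a ∧ z n = a' ∧ (∀ i < n, dist (z i) (z (i + 1)) < δ) ∧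
      ∀ i ≤ n, dist a (z i) ≤ dist a a' := by
  obtain ⟨γ, h0, h1, hγ⟩ := hG a a'
  obtain ⟨N, hN⟩ := exists_nat_gt (dist a a' / δ)
  have hNr : (0 : ℝ) < N := lt_of_le_of_lt (by positivity) hN
  have hmem : ∀ i ≤ N, ((i : ℝ) / N) ∈ Set.Icc (0 : ℝ) 1 := by
    intro i hi
    refine ⟨by positivity, ?_⟩
    rw [div_le_one hNr]
    exact_mod_cast hi
  refine ⟨N, fun i => γ ((i : ℝ) / N), ?_, ?_, ?_, ?_⟩
  · simp [h0]
  · simp [div_self hNr.ne', h1]
  · intro i hi
    rw [hγ _ (hmem i hi.le) _ (hmem (i + 1) hi)]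
    have e : |(i : ℝ) / N - ((i + 1 : ℕ) : ℝ) / N| = 1 / N := by
      have : (i : ℝ) / N - ((i + 1 : ℕ) : ℝ) / N = -(1 / N) := by push_cast; ring
      rw [this, abs_neg, abs_of_nonneg (by positivity)]
    rw [e, mul_one_div, div_lt_iff₀ hNr]
    rw [div_lt_iff₀ hδ] at hN
    linarith [mul_comm (N : ℝ) δ]
  · intro i hi
    have e := hγ 0 ⟨le_rfl, zero_le_one⟩ _ (hmem i hi)
    rw [h0] at e
    show dist a (γ ((i : ℝ) / N)) ≤ _
    rw [e]
    have h2 := hmem i hi
    have : |0 - (i : ℝ) / N| ≤ 1 := by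
      rw [zero_sub, abs_neg, abs_of_nonneg h2.1]
      exact h2.2
    calc dist a a' * |0 - (i : ℝ) / N| ≤ dist a a' * 1 :=
          mul_le_mul_of_nonneg_left this dist_nonneg
      _ = dist a a' := mul_one _

/-- Row U6a. Let `c` be a cocycle on `X` at the scale `e ≤ ε`.  `X × ℝ` with
`(x, r) ↦ (ext x a, r + c x (ext x a))` is a covering at the scale `e`.  `ladder` gives for every
`x` a section `S = (s, F)` over the ball of radius `4ε` with centre `p x`, `S (p x) = (x, 0)`;
`s a = ext x a` if `d(p x, a) < ε`, and `C x a = F a` is a cocycle at the scale `ε`: compare the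
sections for `x` and `ext x a` along a geodesic from `a` to `b`. -/
theorem exists_ext_cocycle (hG : IsGeod M) (hε : 0 < ε) (h : IsUniv ε p ext b)
    (hm : IsUMet ε p ext)
    (hL : ∀ (e : ℝ), 0 < e → ∀ (F : Type) (q : F → M) (ext' : F → M → F), IsCov e q ext' →
      ∀ f : F, ∃ s : M → F, s (q f) = f ∧ (∀ a, dist (q f) a < 4 * ε → q (s a) = a) ∧
        ∃ η : ℝ, 0 < η ∧ ∀ a a', dist (q f) a < 4 * ε → dist (q f) a' < 4 * ε → dist a a' < η →
          s a' = ext' (s a) a')
    {c : X → X → ℝ} {e : ℝ} (he : 0 < e) (hec : e ≤ ε)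
    (hc : ∀ x y z, dist x y < e → dist y z < e → dist x z < e → c x y + c y z = c x z) :
    ∃ C : X → M → ℝ, (∀ x, C x (p x) = 0) ∧
      (∀ x a a', dist (p x) a < ε → dist a a' < ε → dist (p x) a' < ε →
        C x a + C (ext x a) a' = C x a') ∧
      ∃ η : ℝ, 0 < η ∧ ∀ x a, dist (p x) a < η → C x a = c x (ext x a) := by
  classical
  have hcc : ∀ x, c x x = 0 := by
    intro x
    have h1 : dist x x < e := by rw [dist_self]; exact he
    have := hc x x x h1 h1 h1
    linarith
  have hpe : ∀ x a, dist (p x) a < ε → p (ext x a) = a := h.cov.p_ext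
  -- the covering `X × ℝ`
  have hcov : IsCov e (fun w : X × ℝ => p w.1)
      (fun w a => (ext w.1 a, w.2 + c w.1 (ext w.1 a))) := by
    refine ⟨?_, ?_, ?_⟩
    · intro f a ha
      exact hpe _ _ (ha.trans_le hec)
    · intro f
      refine Prod.ext (h.cov.stay _) ?_
      show f.2 + c f.1 (ext f.1 (p f.1)) = f.2
      rw [h.cov.stay, hcc, add_zero]
    · intro f a a' h1 h2 h3
      have h1' := h1.trans_le hec
      have h2' := h2.trans_le hec
      have h3' := h3.trans_le hec
      have ht := h.cov.tri f.1 a a' h1' h2' h3'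
      refine Prod.ext ht ?_
      show f.2 + c f.1 (ext f.1 a) + c (ext f.1 a) (ext (ext f.1 a) a') =
        f.2 + c f.1 (ext f.1 a')
      have d1 : dist f.1 (ext f.1 a) < e := by rw [hm.ext_dist _ _ h1']; exact h1
      have d3 : dist f.1 (ext f.1 a') < e := by rw [hm.ext_dist _ _ h3']; exact h3
      have d2 : dist (ext f.1 a) (ext f.1 a') < e := by
        rw [← ht, hm.ext_dist _ _ (by rw [hpe _ _ h1']; exact h2'), hpe _ _ h1']
        exact h2
      rw [ht, add_assoc, hc _ _ _ d1 d2 d3]
  choose S hS0 hSq η hη hS using fun x : X => hL e he _ _ _ hcov (x, (0 : ℝ))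
  -- the section is `ext` on the ball of radius `ε`, the potential is `c` on the ball of radius `e`
  have hA : ∀ (x : X) (a : M), dist (p x) a < ε → (S x a).1 = ext x a := by
    intro x a ha
    obtain ⟨n, z, hz0, hzn, hz, hzd⟩ := U6a_chain hG (p x) a (lt_min (hη x) hε)
    have key : ∀ i ≤ n, (S x (z i)).1 = ext x (z i) := by
      intro i
      induction i with
      | zero =>
        intro _
        rw [hz0, h.cov.stay]
        exact congrArg Prod.fst (hS0 x)
      | succ i ih =>
        intro hi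
        have hi' : i ≤ n := by omega
        have d1 := (hzd i hi').trans_lt ha
        have d2 := (hzd (i + 1) hi).trans_lt ha
        have d3 := hz i hi
        have e1 := hS x (z i) (z (i + 1)) (by linarith) (by linarith)
          (d3.trans_le (min_le_left _ _))
        have e2 := congrArg Prod.fst e1
        rw [e2]
        show ext (S x (z i)).1 (z (i + 1)) = _
        rw [ih hi', h.cov.tri _ _ _ d1 (d3.trans_le (min_le_right _ _)) d2]
    have := key n le_rfl
    rwa [hzn] at this
  have hB : ∀ (x : X) (a : M), dist (p x) a < e → (S x a).2 = c x (ext x a) := by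
    intro x a ha
    obtain ⟨n, z, hz0, hzn, hz, hzd⟩ := U6a_chain hG (p x) a (lt_min (hη x) he)
    have key : ∀ i ≤ n, (S x (z i)).2 = c x (ext x (z i)) := by
      intro i
      induction i with
      | zero =>
        intro _
        rw [hz0, h.cov.stay, hcc]
        exact congrArg Prod.snd (hS0 x)
      | succ i ih =>
        intro hi
        have hi' : i ≤ n := by omega
        have d1 := (hzd i hi').trans_lt ha
        have d2 := (hzd (i + 1) hi).trans_lt ha
        have d3 := (hz i hi).trans_le (min_le_right _ _)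
        have d1' := d1.trans_le hec
        have d2' := d2.trans_le hec
        have d3' := d3.trans_le hec
        have e1 := hS x (z i) (z (i + 1)) (by linarith) (by linarith)
          ((hz i hi).trans_le (min_le_left _ _))
        have e2 := congrArg Prod.snd e1
        have ht := h.cov.tri x _ _ d1' d3' d2'
        rw [e2]
        show (S x (z i)).2 + c (S x (z i)).1 (ext (S x (z i)).1 (z (i + 1))) = _
        rw [ih hi', hA x _ d1', ht]
        refine hc _ _ _ ?_ ?_ ?_
        · rw [hm.ext_dist _ _ d1']; exact d1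
        · rw [← ht, hm.ext_dist _ _ (by rw [hpe _ _ d1']; exact d3'), hpe _ _ d1']
          exact d3
        · rw [hm.ext_dist _ _ d2']; exact d2
    have := key n le_rfl
    rwa [hzn] at this
  refine ⟨fun x a => (S x a).2, fun x => congrArg Prod.snd (hS0 x), ?_, e, he, hB⟩
  intro x a a' h1 h2 h3
  show (S x a).2 + (S (ext x a) a').2 = (S x a').2
  set y := ext x a with hy
  have hpy : p y = a := hpe x a h1
  obtain ⟨n, z, hz0, hzn, hz, hzd⟩ := U6a_chain hG a a' (lt_min (hη x) (hη y))
  have key : ∀ i ≤ n, (S x (z i)).1 = (S y (z i)).1 ∧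
      (S x a).2 + (S y (z i)).2 = (S x (z i)).2 := by
    intro i
    induction i with
    | zero =>
      intro _
      have e0 := hS0 y
      have e0' : S y a = (y, 0) := by rw [← hpy]; exact e0
      rw [hz0, e0', hA x a h1]
      exact ⟨rfl, add_zero _⟩
    | succ i ih =>
      intro hi
      have hi' : i ≤ n := by omega
      obtain ⟨i1, i2⟩ := ih hi'
      have d1 := (hzd i hi').trans_lt h2
      have d2 := (hzd (i + 1) hi).trans_lt h2
      have t1 := dist_triangle (p x) a (z i)
      have t2 := dist_triangle (p x) a (z (i + 1))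
      have e1 := hS x (z i) (z (i + 1)) (by show dist (p x) _ < _; linarith)
        (by show dist (p x) _ < _; linarith) ((hz i hi).trans_le (min_le_left _ _))
      have e2 := hS y (z i) (z (i + 1)) (by show dist (p y) _ < _; rw [hpy]; linarith)
        (by show dist (p y) _ < _; rw [hpy]; linarith) ((hz i hi).trans_le (min_le_right _ _))
      constructor
      · rw [congrArg Prod.fst e1, congrArg Prod.fst e2]
        show ext (S x (z i)).1 _ = ext (S y (z i)).1 _
        rw [i1]
      · rw [congrArg Prod.snd e1, congrArg Prod.snd e2]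
        show (S x a).2 + ((S y (z i)).2 + c (S y (z i)).1 (ext (S y (z i)).1 (z (i + 1)))) =
          (S x (z i)).2 + c (S x (z i)).1 (ext (S x (z i)).1 (z (i + 1)))
        rw [i1, ← i2]
        ring
  have := (key n le_rfl).2
  rwa [hzn] at this
end U6a

section U6b
open MPf10cd3 F10G F10S

variable {M : Type} [MetricSpace M] {ε : ℝ} {X : Type} [MetricSpace X] {p : X → M}
  {ext : X → M → X} {b : X}

/-- Row U6b. `up` for `X × ℝ` with `(x, r) ↦ (ext x a, r + C x a)`; the first component is the
identity (`mor_id`). -/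
theorem csc_X (hG : IsGeod M) (hε : 0 < ε) (h : IsUniv ε p ext b) (hm : IsUMet ε p ext)
    (hL : ∀ (e : ℝ), 0 < e → ∀ (F : Type) (q : F → M) (ext' : F → M → F), IsCov e q ext' →
      ∀ f : F, ∃ s : M → F, s (q f) = f ∧ (∀ a, dist (q f) a < 4 * ε → q (s a) = a) ∧
        ∃ η : ℝ, 0 < η ∧ ∀ a a', dist (q f) a < 4 * ε → dist (q f) a' < 4 * ε → dist a a' < η →
          s a' = ext' (s a) a') : CSCo X := by
  intro c e0 he0 hc0
  obtain ⟨C, hC0, hCc, η, hη, hCe⟩ := exists_ext_cocycle hG hε h hm hL (c := c)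
    (lt_min he0 hε) (min_le_right e0 ε) (by
      intro x y z h1 h2 h3
      exact hc0 x y z (h1.trans_le (min_le_left _ _)) (h2.trans_le (min_le_left _ _))
        (h3.trans_le (min_le_left _ _)))
  have hcov : IsCov ε (fun z : X × ℝ => p z.1)
      (fun (z : X × ℝ) (a : M) => (ext z.1 a, z.2 + C z.1 a)) := by
    refine ⟨?_, ?_, ?_⟩
    · intro z a hz
      exact h.cov.p_ext z.1 a hz
    · rintro ⟨x, r⟩
      show (ext x (p x), r + C x (p x)) = (x, r)
      rw [h.cov.stay, hC0, add_zero]
    · rintro ⟨x, r⟩ a a' h1 h2 h3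
      show (ext (ext x a) a', r + C x a + C (ext x a) a') = (ext x a', r + C x a')
      rw [h.cov.tri x a a' h1 h2 h3, add_assoc, hCc x a a' h1 h2 h3]
  obtain ⟨Ψ, hb, hq, hΨ⟩ := h.up (X × ℝ) _ _ hcov (b, 0) rfl
  have h1 : ∀ y, (Ψ y).1 = y := by
    refine mor_id hε h (Ψ := fun y => (Ψ y).1) (fun y => hq y) ?_ (x := b) ?_
    · intro y a hy
      show (Ψ (ext y a)).1 = ext (Ψ y).1 a
      rw [hΨ y a hy]
    · show (Ψ b).1 = b
      rw [hb]
  refine ⟨fun x => (Ψ x).2, min η ε, lt_min hη hε, ?_⟩
  intro x y hxy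
  obtain ⟨h2, h3⟩ := hm.near x y (hxy.trans_le (min_le_right _ _))
  have h4 : dist (p x) (p y) < ε := by
    rw [← h3]; exact hxy.trans_le (min_le_right _ _)
  have h5 : dist (p x) (p y) < η := by
    rw [← h3]; exact hxy.trans_le (min_le_left _ _)
  have h6 := hΨ x (p y) h4
  rw [h2] at h6
  have h7 : (Ψ y).2 = (Ψ x).2 + C (Ψ x).1 (p y) := congrArg Prod.snd h6
  rw [h1 x, hCe x (p y) h5, h2] at h7
  show (Ψ y).2 - (Ψ x).2 = c x y
  rw [h7]; ring
end U6b

end F10U
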