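import Pool.Agent.Lib.MP_f10cd3_gt.U.Defs

/-! Rows U4a, U4b: the covering is a geodesic space. -/

set_option autoImplicit false

namespace F10U

section U4b
open MPf10cd3 F10G F10S

variable {M : Type} [MetricSpace M] {ε : ℝ} {X : Type} [MetricSpace X] {p : X → M}
  {ext : X → M → X}

/-- a point between two points at distance `< ε` at which the distance to `x` takes a given
intermediate value -/
theorem U4b_between (hG : IsGeod M) (h : IsCov ε p ext) (hm : IsUMet ε p ext) {x u v : X}
    (huv : dist u v < ε) {r : ℝ} (h1 : dist x u ≤ r) (h2 : r ≤ dist x v) :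
    ∃ w, dist x w = r ∧ dist u w + dist w v = dist u v := by
  obtain ⟨he, hd⟩ := hm.near u v huv
  obtain ⟨g, hg0, hg1, hg⟩ := hG (p u) (p v)
  have hball : ∀ t ∈ Set.Icc (0 : ℝ) 1, dist (p u) (g t) = dist u v * t := by
    intro t ht
    have := hg 0 ⟨le_rfl, zero_le_one⟩ t ht
    rw [hg0, ← hd, zero_sub, abs_neg, abs_of_nonneg ht.1] at this
    exact this
  have hlt : ∀ t ∈ Set.Icc (0 : ℝ) 1, dist (p u) (g t) < ε := by
    intro t ht
    rw [hball t ht]
    refine lt_of_le_of_lt ?_ huv
    exact mul_le_of_le_one_right dist_nonneg ht.2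
  have hgst : ∀ s ∈ Set.Icc (0 : ℝ) 1, ∀ t ∈ Set.Icc (0 : ℝ) 1,
      dist (ext u (g s)) (ext u (g t)) = dist u v * |s - t| := by
    intro s hs t ht
    have e1 : dist (g s) (g t) = dist u v * |s - t| := by rw [hg s hs t ht, hd]
    have h3 : dist (g s) (g t) < ε := by
      rw [e1]
      refine lt_of_le_of_lt ?_ huv
      apply mul_le_of_le_one_right dist_nonneg
      rw [abs_le]
      constructor <;> linarith [hs.1, hs.2, ht.1, ht.2]
    have h4 := h.tri u (g s) (g t) (hlt s hs) h3 (hlt t ht)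
    have h5 := h.p_ext u (g s) (hlt s hs)
    have h6 := hm.ext_dist (ext u (g s)) (g t) (by rw [h5]; exact h3)
    rw [h4, h5, e1] at h6
    exact h6
  have e0 : ext u (g 0) = u := by rw [hg0, h.stay]
  have e1 : ext u (g 1) = v := by rw [hg1, he]
  have hcont : ContinuousOn (fun t => dist x (ext u (g t))) (Set.Icc 0 1) := by
    have hc : ContinuousOn (fun t => ext u (g t)) (Set.Icc 0 1) := by
      rw [Metric.continuousOn_iff]
      intro t ht δ hδ
      refine ⟨δ / (dist u v + 1), by positivity, ?_⟩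
      intro s hs hst
      rw [hgst s hs t ht]
      rw [Real.dist_eq] at hst
      have h7 : dist u v * |s - t| ≤ (dist u v + 1) * |s - t| :=
        mul_le_mul_of_nonneg_right (by linarith) (abs_nonneg _)
      have h8 : (dist u v + 1) * |s - t| < (dist u v + 1) * (δ / (dist u v + 1)) :=
        mul_lt_mul_of_pos_left hst (by positivity)
      rw [mul_div_cancel₀ _ (by positivity)] at h8
      linarith
    have hc3 : Continuous (fun q : X => dist x q) := by fun_prop
    exact hc3.comp_continuousOn hc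
  have hivt := intermediate_value_Icc (zero_le_one' ℝ) hcont
  obtain ⟨t, ht, htr⟩ := hivt (show r ∈ Set.Icc _ _ from ⟨by simpa [e0] using h1,
    by simpa [e1] using h2⟩)
  refine ⟨ext u (g t), htr, ?_⟩
  have a1 := hgst 0 ⟨le_rfl, zero_le_one⟩ t ht
  have a2 := hgst t ht 1 ⟨zero_le_one, le_rfl⟩
  rw [e0] at a1
  rw [e1] at a2
  rw [a1, a2, zero_sub, abs_neg, abs_of_nonneg ht.1, abs_of_nonpos (by linarith [ht.2])]
  ring

/-- approximate point at distance `r` from `x` on a nearly shortest chain -/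
theorem U4b_approx (hG : IsGeod M) (h : IsCov ε p ext) (hm : IsUMet ε p ext) {x y : X}
    {r : ℝ} (hr : 0 ≤ r) (hxy : r < dist x y) {δ : ℝ} (hδ : 0 < δ) :
    ∃ w, dist x w = r ∧ dist w y ≤ dist x y - r + δ := by
  obtain ⟨n, z, hz0, hzn, hz, hsum⟩ := hm.chain x y δ hδ
  have hex : ∃ i, r < dist x (z i) := ⟨n, by rw [hzn]; exact hxy⟩
  classical
  have hfs := Nat.find_spec hex
  have hfmin := fun (m : ℕ) (hm : m < Nat.find hex) => Nat.find_min hex hm
  have hle : Nat.find hex ≤ n := Nat.find_min' hex (by rw [hzn]; exact hxy)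
  have hpos : Nat.find hex ≠ 0 := by
    intro h0
    rw [h0, hz0, dist_self] at hfs
    linarith
  obtain ⟨i, hi⟩ := Nat.exists_eq_succ_of_ne_zero hpos
  rw [hi] at hfs hfmin hle
  have hi1 : dist x (z i) ≤ r := not_lt.1 (hfmin i (Nat.lt_succ_self i))
  have hin : i < n := hle
  obtain ⟨hzi, hzi'⟩ := hz i hin
  have hd : dist (z i) (z (i + 1)) < ε := by
    have := hm.ext_dist (z i) (p (z (i + 1))) hzi
    rw [← hzi'] at this
    rw [this]; exact hzi
  obtain ⟨w, hw, hw2⟩ := U4b_between hG h hm hd hi1 (le_of_lt hfs)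
  refine ⟨w, hw, ?_⟩
  have s1 : ∀ j, dist x (z j) ≤ ∑ k ∈ Finset.range j, dist (z k) (z (k + 1)) := by
    intro j
    rw [← hz0]
    exact dist_le_range_sum_dist z j
  have s2 : dist (z (i + 1)) y ≤ ∑ k ∈ Finset.Ico (i + 1) n, dist (z k) (z (k + 1)) := by
    rw [← hzn]
    exact dist_le_Ico_sum_dist z hin
  have s3 : ∑ k ∈ Finset.range n, dist (z k) (z (k + 1)) =
      ∑ k ∈ Finset.range i, dist (z k) (z (k + 1)) + dist (z i) (z (i + 1)) +
        ∑ k ∈ Finset.Ico (i + 1) n, dist (z k) (z (k + 1)) := by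
    rw [← Finset.sum_range_succ, Finset.sum_range_add_sum_Ico _ hin]
  have t1 : dist w y ≤ dist w (z (i + 1)) + dist (z (i + 1)) y := dist_triangle _ _ _
  have t2 : dist x w ≤ dist x (z i) + dist (z i) w := dist_triangle _ _ _
  have s4 := s1 i
  linarith

/-- Row U4b. `δ > 0`: a chain from `x` to `y` of length `≤ dist x y + δ` contains, after insertion
of a point of a lifted geodesic (intermediate value theorem), a point `w` with
`dist x w = ε/4` and `dist w y ≤ dist x y - ε/4 + δ`; the closed ball of radius `ε/4` is compact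
(it is the isometric image of a closed ball of `M` under `a ↦ ext x a`); `δ → 0`. -/
theorem mid_pt [CompactSpace M] (hG : IsGeod M) (hε : 0 < ε) (h : IsCov ε p ext)
    (hm : IsUMet ε p ext) {x y : X} (hxy : ε / 2 ≤ dist x y) :
    ∃ z, dist x z = ε / 4 ∧ dist z y = dist x y - ε / 4 := by
  have hpos : ∀ n : ℕ, (0 : ℝ) < 1 / ((n : ℝ) + 1) := fun n => by positivity
  have hex : ∀ n : ℕ, ∃ w, dist x w = ε / 4 ∧ dist w y ≤ dist x y - ε / 4 + 1 / ((n : ℝ) + 1) :=
    fun n => U4b_approx hG h hm (by linarith) (by linarith) (hpos n)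
  choose w hw1 hw2 using hex
  obtain ⟨a, _, φ, hφ, hlim⟩ := isCompact_univ.tendsto_subseq (x := fun n => p (w n))
    (fun n => Set.mem_univ _)
  have hnear : ∀ n, ext x (p (w n)) = w n ∧ dist x (w n) = dist (p x) (p (w n)) := fun n =>
    hm.near x (w n) (by rw [hw1 n]; linarith)
  have hpa : dist (p x) a = ε / 4 := by
    have h1 : Filter.Tendsto (fun n => dist (p x) (p (w (φ n)))) Filter.atTop
        (nhds (dist (p x) a)) := tendsto_const_nhds.dist hlim
    have h2 : (fun n => dist (p x) (p (w (φ n)))) = fun _ => ε / 4 := by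
      funext n
      rw [← (hnear (φ n)).2, hw1]
    rw [h2] at h1
    exact tendsto_nhds_unique h1 tendsto_const_nhds |>.symm ▸ rfl
  have hz1 : dist x (ext x a) = ε / 4 := by
    rw [hm.ext_dist x a (by rw [hpa]; linarith), hpa]
  refine ⟨ext x a, hz1, le_antisymm ?_ ?_⟩
  · have hd : Filter.Tendsto (fun n => dist (p (w (φ n))) a + (dist x y - ε / 4 +
        1 / (((φ n : ℕ) : ℝ) + 1))) Filter.atTop (nhds (0 + (dist x y - ε / 4 + 0))) := by
      refine Filter.Tendsto.add ?_ (Filter.Tendsto.add tendsto_const_nhds ?_)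
      · have := tendsto_iff_dist_tendsto_zero.1 hlim
        exact this
      · exact (tendsto_one_div_add_atTop_nhds_zero_nat (𝕜 := ℝ)).comp hφ.tendsto_atTop
    rw [zero_add, add_zero] at hd
    refine ge_of_tendsto hd ?_
    have hev : ∀ᶠ n in Filter.atTop, dist (p (w (φ n))) a < ε := by
      have := tendsto_iff_dist_tendsto_zero.1 hlim
      exact this.eventually (gt_mem_nhds hε)
    filter_upwards [hev] with n hn
    have e1 := h.tri x (p (w (φ n))) a (by rw [← (hnear (φ n)).2, hw1]; linarith) hn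
      (by rw [hpa]; linarith)
    rw [(hnear (φ n)).1] at e1
    have e2 := hm.ext_dist (w (φ n)) a hn
    rw [e1] at e2
    have e3 := dist_triangle (ext x a) (w (φ n)) y
    rw [dist_comm (ext x a) (w (φ n)), e2] at e3
    linarith [hw2 (φ n)]
  · have := dist_triangle x (ext x a) y
    linarith
end U4b

section U4a
open MPf10cd3 F10G F10S

/-- a curve from `x` to `y` which is Lipschitz with constant `dist x y` is a geodesic -/
theorem U4a_of_le {X : Type} [MetricSpace X] {x y : X} {γ : ℝ → X} (h0 : γ 0 = x) (h1 : γ 1 = y)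
    (h : ∀ s t : ℝ, 0 ≤ s → s ≤ t → t ≤ 1 → dist (γ s) (γ t) ≤ dist x y * (t - s)) :
    GeoTo x y := by
  have key : ∀ s t : ℝ, 0 ≤ s → s ≤ t → t ≤ 1 → dist (γ s) (γ t) = dist x y * (t - s) := by
    intro s t hs hst ht
    apply le_antisymm (h s t hs hst ht)
    have h2 := h 0 s le_rfl hs (hst.trans ht)
    have h3 := h t 1 (hs.trans hst) ht le_rfl
    rw [h0] at h2
    rw [h1] at h3
    have h4 : dist x y ≤ dist x (γ s) + dist (γ s) (γ t) + dist (γ t) y := dist_triangle4 _ _ _ _
    nlinarith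
  refine ⟨γ, h0, h1, fun s hs t ht => ?_⟩
  rcases le_total s t with hst | hst
  · rw [key s t hs.1 hst ht.2, abs_sub_comm, abs_of_nonneg (sub_nonneg.2 hst)]
  · rw [dist_comm, key t s ht.1 hst hs.2, abs_of_nonneg (sub_nonneg.2 hst)]

/-- Row U4a. gluing of geodesics -/
theorem geo_glue {X : Type} [MetricSpace X] {x z y : X} (h1 : GeoTo x z) (h2 : GeoTo z y)
    (h : dist x z + dist z y = dist x y) : GeoTo x y := by
  rcases eq_or_ne x z with rfl | hxz
  · exact h2
  rcases eq_or_ne z y with rfl | hzy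
  · exact h1
  obtain ⟨γ1, a0, a1, ha⟩ := h1
  obtain ⟨γ2, b0, b1, hb⟩ := h2
  have ha' : 0 < dist x z := dist_pos.2 hxz
  have hb' : 0 < dist z y := dist_pos.2 hzy
  set a := dist x z with hadef
  set b := dist z y with hbdef
  set L := dist x y with hLdef
  have hL : 0 < L := by linarith
  classical
  have hc1 : a / L < 1 := by rw [div_lt_one hL]; linarith
  have hc0 : 0 < a / L := div_pos ha' hL
  refine U4a_of_le (γ := fun t => if t ≤ a / L then γ1 (t * L / a) else γ2 ((t * L - a) / b)) ?_ ?_ ?_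
  · rw [if_pos hc0.le]
    simpa using a0
  · rw [if_neg (not_le.2 hc1)]
    have : (1 * L - a) / b = 1 := by
      rw [div_eq_one_iff_eq hb'.ne']
      linarith
    rw [this, b1]
  · intro s t hs hst ht
    rw [← hLdef]
    have m1 : ∀ r : ℝ, 0 ≤ r → r ≤ a / L → r * L / a ∈ Set.Icc (0 : ℝ) 1 := by
      intro r hr0 hr1
      rw [le_div_iff₀ hL] at hr1
      exact ⟨by positivity, by rw [div_le_one ha']; exact hr1⟩
    have m2 : ∀ r : ℝ, a / L < r → r ≤ 1 → (r * L - a) / b ∈ Set.Icc (0 : ℝ) 1 := by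
      intro r hr0 hr1
      rw [div_lt_iff₀ hL] at hr0
      refine ⟨div_nonneg (by linarith) hb'.le, ?_⟩
      rw [div_le_one hb']
      nlinarith
    by_cases hsc : s ≤ a / L
    · rw [if_pos hsc]
      by_cases htc : t ≤ a / L
      · rw [if_pos htc, ha _ (m1 s hs hsc) _ (m1 t (hs.trans hst) htc)]
        have e1 : s * L / a - t * L / a = -((t - s) * L / a) := by ring
        rw [e1, abs_neg, abs_of_nonneg (div_nonneg (mul_nonneg (sub_nonneg.2 hst) hL.le) ha'.le)]
        rw [mul_div_cancel₀ _ ha'.ne', mul_comm]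
      · rw [if_neg htc]
        rw [not_le] at htc
        have e1 : dist (γ1 (s * L / a)) z = a - s * L := by
          have := ha _ (m1 s hs hsc) 1 ⟨zero_le_one, le_rfl⟩
          rw [a1] at this
          rw [this]
          have e2 : s * L / a - 1 = -((a - s * L) / a) := by
            field_simp
            ring
          have e3 : 0 ≤ a - s * L := by
            rw [le_div_iff₀ hL] at hsc
            linarith
          rw [e2, abs_neg, abs_of_nonneg (div_nonneg e3 ha'.le), mul_div_cancel₀ _ ha'.ne']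
        have e4 : dist z (γ2 ((t * L - a) / b)) = t * L - a := by
          have := hb 0 ⟨le_rfl, zero_le_one⟩ _ (m2 t htc ht)
          rw [b0] at this
          rw [this]
          have e5 : 0 ≤ t * L - a := by
            rw [div_lt_iff₀ hL] at htc
            linarith
          rw [zero_sub, abs_neg, abs_of_nonneg (div_nonneg e5 hb'.le), mul_div_cancel₀ _ hb'.ne']
        have e6 := dist_triangle (γ1 (s * L / a)) z (γ2 ((t * L - a) / b))
        rw [e1, e4] at e6
        linarith
    · have htc : ¬ t ≤ a / L := fun h' => hsc (hst.trans h')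
      rw [if_neg hsc, if_neg htc]
      rw [not_le] at hsc htc
      rw [hb _ (m2 s hsc (hst.trans ht)) _ (m2 t htc ht)]
      have e1 : (s * L - a) / b - (t * L - a) / b = -((t - s) * L / b) := by ring
      rw [e1, abs_neg, abs_of_nonneg (div_nonneg (mul_nonneg (sub_nonneg.2 hst) hL.le) hb'.le)]
      rw [mul_div_cancel₀ _ hb'.ne', mul_comm]

variable {M : Type} [MetricSpace M] {ε : ℝ} {X : Type} [MetricSpace X] {p : X → M}
  {ext : X → M → X}

/-- Row U4a. points at distance `< ε`: the geodesic `g` of `M` from `p x` to `p y` lifts to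
`t ↦ ext x (g t)`, and `ext (ext x (g s)) (g t) = ext x (g t)` -/
theorem geo_near (hG : IsGeod M) (h : IsCov ε p ext) (hm : IsUMet ε p ext) {x y : X}
    (hxy : dist x y < ε) : GeoTo x y := by
  obtain ⟨hn1, hn2⟩ := hm.near x y hxy
  obtain ⟨g, g0, g1, hg⟩ := hG (p x) (p y)
  refine U4a_of_le (γ := fun t => ext x (g t)) ?_ ?_ ?_
  · rw [g0, h.stay]
  · rw [g1, hn1]
  · intro s t hs hst ht
    have hsI : s ∈ Set.Icc (0 : ℝ) 1 := ⟨hs, hst.trans ht⟩
    have htI : t ∈ Set.Icc (0 : ℝ) 1 := ⟨hs.trans hst, ht⟩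
    have hd : 0 ≤ dist x y := dist_nonneg
    have near : ∀ r ∈ Set.Icc (0 : ℝ) 1, dist (p x) (g r) < ε := by
      intro r hr
      have e1 := hg 0 ⟨le_rfl, zero_le_one⟩ r hr
      rw [g0] at e1
      rw [e1, ← hn2, zero_sub, abs_neg, abs_of_nonneg hr.1]
      nlinarith [hr.2]
    have e2 : dist (g s) (g t) = dist x y * (t - s) := by
      rw [hg s hsI t htI, ← hn2, abs_sub_comm, abs_of_nonneg (sub_nonneg.2 hst)]
    have e3 : dist (g s) (g t) < ε := by
      rw [e2]
      nlinarith [hsI.1, htI.2]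
    have e4 : ext (ext x (g s)) (g t) = ext x (g t) := h.tri x (g s) (g t) (near s hsI) e3 (near t htI)
    have e5 : p (ext x (g s)) = g s := h.p_ext x (g s) (near s hsI)
    rw [← e4, hm.ext_dist (ext x (g s)) (g t) (by rw [e5]; exact e3), e5, e2]

/-- Row U4a. induction on the number `⌈dist x y / (ε/4)⌉` -/
theorem geod_X [CompactSpace M] (hG : IsGeod M) (hε : 0 < ε) (h : IsCov ε p ext)
    (hm : IsUMet ε p ext) : IsGeod X := by
  have key : ∀ (n : ℕ) (x y : X), dist x y < n * (ε / 4) → GeoTo x y := by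
    intro n
    induction n with
    | zero =>
      intro x y hxy
      simp at hxy
      exact absurd hxy (not_lt.2 dist_nonneg)
    | succ n ih =>
      intro x y hxy
      by_cases hn : dist x y < ε
      · exact geo_near hG h hm hn
      · rw [not_lt] at hn
        obtain ⟨z, hz1, hz2⟩ := mid_pt hG hε h hm (x := x) (y := y) (by linarith)
        refine geo_glue (geo_near hG h hm (by linarith)) (ih z y ?_) (by linarith)
        rw [hz2]
        push_cast at hxy
        linarith
  intro x y
  obtain ⟨n, hn⟩ := exists_nat_gt (dist x y / (ε / 4))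
  rw [div_lt_iff₀ (by positivity)] at hn
  exact key n x y hn
end U4a

end F10U
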