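import Pool.Agent.Lib.MP_f10cd3_gt.U.Defs

/-! Row U3: the length metric. -/

set_option autoImplicit false

namespace F10U

open MPf10cd3 F10G F10S

variable {M : Type} [MetricSpace M] {ε : ℝ} {X : Type} {p : X → M} {ext : X → M → X} {b : X}

/-- a step -/
def u3St (ε : ℝ) (p : X → M) (ext : X → M → X) (x y : X) : Prop :=
  dist (p x) (p y) < ε ∧ y = ext x (p y)

/-- a chain of a given length -/
inductive u3Ch (ε : ℝ) (p : X → M) (ext : X → M → X) : X → X → ℝ → Prop where
  | nil (x : X) : u3Ch ε p ext x x 0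
  | cons (x y z : X) (L : ℝ) : u3St ε p ext x y → u3Ch ε p ext y z L →
      u3Ch ε p ext x z (dist (p x) (p y) + L)

theorem u3St_symm (hε : 0 < ε) (h : IsCov ε p ext) {x y : X} (hxy : u3St ε p ext x y) :
    u3St ε p ext y x := by
  obtain ⟨h1, h2⟩ := hxy
  refine ⟨by rw [dist_comm]; exact h1, ?_⟩
  have h3 := h.tri x (p y) (p x) h1 (by rw [dist_comm]; exact h1) (by rw [dist_self]; exact hε)
  rw [← h2, h.stay] at h3
  exact h3.symm

theorem u3Ch_append {x y z : X} {L L' : ℝ} (h1 : u3Ch ε p ext x y L)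
    (h2 : u3Ch ε p ext y z L') : u3Ch ε p ext x z (L + L') := by
  induction h1 with
  | nil x => rw [zero_add]; exact h2
  | cons x y w L hs _ ih =>
    rw [add_assoc]
    exact u3Ch.cons x y z _ hs (ih h2)

theorem u3Ch_single {x y : X} (h : u3St ε p ext x y) :
    u3Ch ε p ext x y (dist (p x) (p y)) := by
  have := u3Ch.cons x y y 0 h (u3Ch.nil y)
  rwa [add_zero] at this

theorem u3Ch_symm (hε : 0 < ε) (h : IsCov ε p ext) {x y : X} {L : ℝ}
    (h1 : u3Ch ε p ext x y L) : u3Ch ε p ext y x L := by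
  induction h1 with
  | nil x => exact u3Ch.nil x
  | cons x y z L hs _ ih =>
    have h2 := u3Ch_append ih (u3Ch_single (u3St_symm hε h hs))
    rw [dist_comm (p y) (p x), add_comm] at h2
    exact h2

theorem u3Ch_le {x y : X} {L : ℝ} (h1 : u3Ch ε p ext x y L) : dist (p x) (p y) ≤ L := by
  induction h1 with
  | nil x => rw [dist_self]
  | cons x y z L hs _ ih => exact (dist_triangle _ (p y) _).trans (by linarith)

theorem u3Ch_nonneg {x y : X} {L : ℝ} (h1 : u3Ch ε p ext x y L) : 0 ≤ L :=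
  dist_nonneg.trans (u3Ch_le h1)

/-- short chains stay in the sheet -/
theorem u3Ch_short (h : IsCov ε p ext) {x y : X} {L : ℝ} (h1 : u3Ch ε p ext x y L)
    (w : X) (hw : x = ext w (p x)) (hL : dist (p w) (p x) + L < ε) : y = ext w (p y) := by
  induction h1 with
  | nil x => exact hw
  | cons x y z L hs hc ih =>
    have h2 := u3Ch_nonneg hc
    have h3 : dist (p w) (p y) ≤ dist (p w) (p x) + dist (p x) (p y) := dist_triangle _ _ _
    have h4 : dist (p w) (p x) < ε := by
      have := dist_nonneg (x := p x) (y := p y)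
      linarith
    have h5 := h.tri w (p x) (p y) h4 hs.1 (by linarith)
    rw [← hw, ← hs.2] at h5
    exact ih h5 (by linarith)

theorem u3Ch_exists (hε : 0 < ε) (h : IsUniv ε p ext b) (x y : X) :
    ∃ L, u3Ch ε p ext x y L := by
  have key : ∀ x, ∃ L, u3Ch ε p ext b x L := by
    apply h.ind
    · exact ⟨0, u3Ch.nil b⟩
    · rintro x a hxa ⟨L, hL⟩
      have hs : u3St ε p ext x (ext x a) := by
        refine ⟨?_, ?_⟩
        · rw [h.cov.p_ext x a hxa]; exact hxa
        · rw [h.cov.p_ext x a hxa]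
      exact ⟨_, u3Ch_append hL (u3Ch_single hs)⟩
  obtain ⟨L, hL⟩ := key x
  obtain ⟨L', hL'⟩ := key y
  exact ⟨_, u3Ch_append (u3Ch_symm hε h.cov hL) hL'⟩

/-- the distance -/
noncomputable def u3d (ε : ℝ) (p : X → M) (ext : X → M → X) (x y : X) : ℝ :=
  sInf {L | u3Ch ε p ext x y L}

theorem u3d_le {x y : X} {L : ℝ} (h : u3Ch ε p ext x y L) : u3d ε p ext x y ≤ L :=
  csInf_le ⟨0, fun _ h => u3Ch_nonneg h⟩ h

theorem u3d_lt (hε : 0 < ε) (h : IsUniv ε p ext b) {x y : X} {r : ℝ}
    (hr : u3d ε p ext x y < r) : ∃ L < r, u3Ch ε p ext x y L := by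
  obtain ⟨L, hL, hLr⟩ := exists_lt_of_csInf_lt (u3Ch_exists hε h x y) hr
  exact ⟨L, hLr, hL⟩

theorem le_u3d (hε : 0 < ε) (h : IsUniv ε p ext b) {x y : X} {r : ℝ}
    (hr : ∀ L, u3Ch ε p ext x y L → r ≤ L) : r ≤ u3d ε p ext x y :=
  le_csInf (u3Ch_exists hε h x y) hr

theorem u3_near (hε : 0 < ε) (h : IsUniv ε p ext b) {x y : X} (hxy : u3d ε p ext x y < ε) :
    ext x (p y) = y ∧ u3d ε p ext x y = dist (p x) (p y) := by
  obtain ⟨L, hL, hc⟩ := u3d_lt hε h hxy
  have h1 : y = ext x (p y) := u3Ch_short h.cov hc x (h.cov.stay x).symm (by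
    rw [dist_self, zero_add]; exact hL)
  have h2 : dist (p x) (p y) < ε := lt_of_le_of_lt (u3Ch_le hc) hL
  refine ⟨h1.symm, le_antisymm (u3d_le (u3Ch_single ⟨h2, h1⟩)) ?_⟩
  exact le_u3d hε h fun L hL => u3Ch_le hL

theorem u3_ext (hε : 0 < ε) (h : IsUniv ε p ext b) (x : X) (a : M) (hxa : dist (p x) a < ε) :
    u3d ε p ext x (ext x a) = dist (p x) a := by
  have hp := h.cov.p_ext x a hxa
  have hs : u3St ε p ext x (ext x a) := by
    refine ⟨?_, ?_⟩
    · rw [hp]; exact hxa
    · rw [hp]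
  have h1 := u3d_le (u3Ch_single hs)
  rw [hp] at h1
  refine le_antisymm h1 (le_u3d hε h fun L hL => ?_)
  have h2 := u3Ch_le hL
  rwa [hp] at h2

theorem u3_seq {x y : X} {L : ℝ} (h1 : u3Ch ε p ext x y L) :
    ∃ (n : ℕ) (z : ℕ → X), z 0 = x ∧ z n = y ∧
      (∀ i < n, dist (p (z i)) (p (z (i + 1))) < ε ∧ z (i + 1) = ext (z i) (p (z (i + 1)))) ∧
      ∑ i ∈ Finset.range n, dist (p (z i)) (p (z (i + 1))) = L := by
  induction h1 with
  | nil x => exact ⟨0, fun _ => x, rfl, rfl, fun i hi => absurd hi (Nat.not_lt_zero _), by simp⟩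
  | cons x y z L hs _ ih =>
    obtain ⟨n, w, w0, wn, hw, hsum⟩ := ih
    refine ⟨n + 1, fun i => Nat.casesOn i x w, rfl, wn, ?_, ?_⟩
    · intro i hi
      cases i with
      | zero =>
        change dist (p x) (p (w 0)) < ε ∧ w 0 = ext x (p (w 0))
        rw [w0]; exact hs
      | succ i => exact hw i (by omega)
    · rw [Finset.sum_range_succ']
      change ∑ i ∈ Finset.range n, dist (p (w i)) (p (w (i + 1))) + dist (p x) (p (w 0)) = _
      rw [hsum, w0, add_comm]

/-- `dist x y` = infimum of the lengths `∑ dist (p (z i)) (p (z (i+1)))` of the chains `z` from `x`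
to `y` with `dist (p (z i)) (p (z (i+1))) < ε`, `z (i+1) = ext (z i) (p (z (i+1)))`.  Chains exist
by `ind` (both directions: a chain can be reversed because `ext (ext x a) (p x) = x`).  A chain of
length `< ε` from `x` has all its points `ext x (p (z i))` (induction, `tri`). -/
theorem exists_metric (hε : 0 < ε) (h : IsUniv ε p ext b) :
    ∃ _ : MetricSpace X, IsUMet ε p ext := by
  let m : MetricSpace X :=
    { dist := u3d ε p ext
      dist_self := fun x => le_antisymm (u3d_le (u3Ch.nil x))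
        (le_u3d hε h fun _ hL => u3Ch_nonneg hL)
      dist_comm := by
        have key : ∀ x y, u3d ε p ext x y ≤ u3d ε p ext y x := fun x y =>
          le_u3d hε h fun L hL => u3d_le (u3Ch_symm hε h.cov hL)
        exact fun x y => le_antisymm (key x y) (key y x)
      dist_triangle := by
        intro x y z
        apply le_of_forall_pos_le_add
        intro δ hδ
        obtain ⟨L, hL, hc⟩ := u3d_lt hε h (x := x) (y := y) (r := u3d ε p ext x y + δ / 2)
          (by linarith)
        obtain ⟨L', hL', hc'⟩ := u3d_lt hε h (x := y) (y := z) (r := u3d ε p ext y z + δ / 2)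
          (by linarith)
        have := u3d_le (u3Ch_append hc hc')
        linarith
      eq_of_dist_eq_zero := by
        intro x y hxy
        have h0 : u3d ε p ext x y = 0 := hxy
        obtain ⟨h1, h2⟩ := u3_near hε h (x := x) (y := y) (by rw [h0]; exact hε)
        rw [h0] at h2
        have h3 : p x = p y := dist_eq_zero.1 h2.symm
        rw [← h1, ← h3, h.cov.stay] }
  refine ⟨m, ?_⟩
  have hd : ∀ x y : X, dist x y = u3d ε p ext x y := fun x y => rfl
  refine ⟨?_, ?_, ?_, ?_, ?_⟩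
  · intro x y
    rw [hd]
    exact le_u3d hε h fun L hL => u3Ch_le hL
  · intro x y hxy
    rw [hd] at hxy ⊢
    exact u3_near hε h hxy
  · intro x a hxa
    rw [hd]
    exact u3_ext hε h x a hxa
  · intro x y δ hδ
    obtain ⟨L, hL, hc⟩ := u3d_lt hε h (x := x) (y := y) (r := u3d ε p ext x y + δ)
      (by linarith)
    obtain ⟨n, z, z0, zn, hz, hsum⟩ := u3_seq hc
    refine ⟨n, z, z0, zn, hz, ?_⟩
    have h1 : ∑ i ∈ Finset.range n, dist (z i) (z (i + 1)) = L := by
      rw [← hsum]
      refine Finset.sum_congr rfl fun i hi => ?_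
      obtain ⟨h2, h3⟩ := hz i (Finset.mem_range.1 hi)
      have h4 := u3_ext hε h (z i) (p (z (i + 1))) h2
      rw [← h3] at h4
      rw [hd]; exact h4
    rw [h1, hd]
    exact hL.le
  · intro σ hσp hσe x y
    rw [hd, hd]
    refine le_u3d hε h fun L hL => ?_
    apply u3d_le
    induction hL with
    | nil x => exact u3Ch.nil _
    | cons x y z L hs _ ih =>
      have h1 : u3St ε p ext (σ x) (σ y) := by
        refine ⟨?_, ?_⟩
        · rw [hσp, hσp]; exact hs.1
        · rw [hσp, ← hσe x (p y) hs.1, ← hs.2]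
      have h2 := u3Ch.cons (σ x) (σ y) (σ z) L h1 ih
      rw [hσp, hσp] at h2
      exact h2

end F10U
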