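import Pool.Agent.Lib.MP_f10cd3_gt.U.Univ
import Pool.Agent.Lib.MP_f10cd3_gt.U.Met
import Pool.Agent.Lib.MP_f10cd3_gt.U.GeoX
import Pool.Agent.Lib.MP_f10cd3_gt.U.CovX
import Pool.Agent.Lib.MP_f10cd3_gt.U.CscX

/-! Row U7: existence of the covering. -/

set_option autoImplicit false

namespace F10U

open MPf10cd3 F10G F10S

theorem exists_cover {M : Type} [MetricSpace M] [CompactSpace M] [Nonempty M] {κ : ℝ}
    {A : Set (PC M)} (hG : IsGeod M) (hA : IsAtlas κ A) :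
    ∃ (Γ X : Type) (_ : Group Γ) (_ : MetricSpace X) (_ : MulAction Γ X) (π : X → M),
      Nonempty X ∧ CSCo X ∧ IsGeod X ∧ IsCover Γ π := by
  obtain ⟨ε, hε, hleb⟩ := lebesgue hA
  obtain ⟨X, p, ext, b, hU, _⟩ := exists_univ hε (Classical.arbitrary M)
  obtain ⟨mX, hm⟩ := exists_metric hε hU
  obtain ⟨Γ, gΓ, aΓ, h1, h2, h3, h4⟩ := exists_deck hε hU
  have hL : ∀ (e : ℝ), 0 < e → ∀ (F : Type) (q : F → M) (ext' : F → M → F), IsCov e q ext' →
      ∀ f : F, ∃ s : M → F, s (q f) = f ∧ (∀ a, dist (q f) a < 4 * ε → q (s a) = a) ∧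
        ∃ η : ℝ, 0 < η ∧ ∀ a a', dist (q f) a < 4 * ε → dist (q f) a' < 4 * ε → dist a a' < η →
          s a' = ext' (s a) a' := by
    intro e he F q ext' hF f
    obtain ⟨c, hc, z, ρ, _, hsub, hball⟩ := hleb (q f)
    have hmem : ∀ a, dist (q f) a < 4 * ε → a ∈ c.φ '' Metric.ball z ρ := by
      intro a ha
      apply hball
      rw [Metric.mem_ball, dist_comm]
      exact ha
    have hp : q f ∈ c.φ '' Metric.ball z ρ := hmem _ (by rw [dist_self]; linarith)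
    obtain ⟨s, hs1, hs2, η, hη, hs3⟩ := ladder (hA.pc c hc) hsub he hF hp rfl
    exact ⟨s, hs1, fun a ha => hs2 a (hmem a ha), η, hη,
      fun a a' ha ha' hd => hs3 a (hmem a ha) a' (hmem a' ha') hd⟩
  exact ⟨Γ, X, gΓ, mX, aΓ, p, ⟨b⟩, csc_X hG hε hU hm hL, geod_X hG hε hU.cov hm,
    cover_X hG hε hU hm h1 h2 h3 h4⟩

end F10U
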