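import Pool.Agent.Lib.MP_f10cd3_gt.S.Lip

/-!
# Existence of the universal covering (coarse version): definitions

A covering of `M` at the scale `ε`: a map `q : F → M` and for `f : F` and `a ∈ M` near `q f` the
point `ext f a` over `a`.
-/

set_option autoImplicit false

namespace F10U

open MPf10cd3 F10G F10S

variable {M : Type} [MetricSpace M]

structure IsCov (ε : ℝ) {F : Type} (q : F → M) (ext : F → M → F) : Prop where
  p_ext : ∀ f a, dist (q f) a < ε → q (ext f a) = a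
  stay : ∀ f, ext f (q f) = f
  tri : ∀ f a b, dist (q f) a < ε → dist a b < ε → dist (q f) b < ε →
    ext (ext f a) b = ext f b

/-- the universal covering at the scale `ε` with base point `b` -/
structure IsUniv (ε : ℝ) {X : Type} (p : X → M) (ext : X → M → X) (b : X) : Prop where
  cov : IsCov ε p ext
  ind : ∀ P : X → Prop, P b → (∀ x a, dist (p x) a < ε → P x → P (ext x a)) → ∀ x, P x
  up : ∀ (F : Type) (q : F → M) (e : F → M → F), IsCov ε q e → ∀ f0 : F, q f0 = p b →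
    ∃ Ψ : X → F, Ψ b = f0 ∧ (∀ x, q (Ψ x) = p x) ∧
      ∀ x a, dist (p x) a < ε → Ψ (ext x a) = e (Ψ x) a

/-- the length metric of the covering -/
structure IsUMet (ε : ℝ) {X : Type} [MetricSpace X] (p : X → M) (ext : X → M → X) : Prop where
  le : ∀ x y, dist (p x) (p y) ≤ dist x y
  near : ∀ x y, dist x y < ε → ext x (p y) = y ∧ dist x y = dist (p x) (p y)
  ext_dist : ∀ x a, dist (p x) a < ε → dist x (ext x a) = dist (p x) a
  chain : ∀ (x y : X) (δ : ℝ), 0 < δ → ∃ (n : ℕ) (z : ℕ → X), z 0 = x ∧ z n = y ∧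
    (∀ i < n, dist (p (z i)) (p (z (i + 1))) < ε ∧ z (i + 1) = ext (z i) (p (z (i + 1)))) ∧
      ∑ i ∈ Finset.range n, dist (z i) (z (i + 1)) ≤ dist x y + δ
  inv : ∀ σ : X → X, (∀ x, p (σ x) = p x) → (∀ x a, dist (p x) a < ε →
    σ (ext x a) = ext (σ x) a) → ∀ x y, dist (σ x) (σ y) ≤ dist x y

/-- `γ` is a geodesic from `x` to `y` -/
def GeoTo {X : Type} [MetricSpace X] (x y : X) : Prop :=
  ∃ γ : ℝ → X, γ 0 = x ∧ γ 1 = y ∧
    ∀ s ∈ Set.Icc (0 : ℝ) 1, ∀ t ∈ Set.Icc (0 : ℝ) 1, dist (γ s) (γ t) = dist x y * |s - t|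

/-- every real coarse cocycle has a potential (`CoarseSC`) -/
def CSCo (X : Type) [MetricSpace X] : Prop :=
  ∀ (c : X → X → ℝ) (ε : ℝ), 0 < ε →
    (∀ x y z, dist x y < ε → dist y z < ε → dist x z < ε → c x y + c y z = c x z) →
    ∃ f : X → ℝ, ∃ η > 0, ∀ x y, dist x y < η → f y - f x = c x y

end F10U
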