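import Pool.Agent.Lib.MP_f10cd3_gt.U.Defs

/-! Rows LAD, LEB: sections over discs. -/

set_option autoImplicit false

namespace F10U

open MPf10cd3 F10G F10S

variable {M : Type} [MetricSpace M] {κ : ℝ} {A : Set (PC M)}

/-- point number `i` of the subdivision of the segment from `z` to `w` -/
private noncomputable def ladPt (N : ℕ) (z w : ℂ) (i : ℕ) : ℂ := z + ((i : ℝ) / N) • (w - z)

/-- the lift of the subdivided segment -/
private noncomputable def ladCh {F : Type} (ext : F → M → F) (φ : ℂ → M) (N : ℕ) (z w : ℂ) (f : F) :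
    ℕ → F
  | 0 => f
  | i + 1 => ext (ladCh ext φ N z w f i) (φ (ladPt N z w (i + 1)))

private theorem ladPt_mem {N : ℕ} (hN : 0 < N) {z0 z w : ℂ} {ρ : ℝ} (hz : z ∈ Metric.ball z0 ρ)
    (hw : w ∈ Metric.ball z0 ρ) {i : ℕ} (hi : i ≤ N) : ladPt N z w i ∈ Metric.ball z0 ρ := by
  have hN' : (0 : ℝ) < N := by exact_mod_cast hN
  have h1 : (i : ℝ) ≤ N := by exact_mod_cast hi
  exact (convex_ball z0 ρ).add_smul_sub_mem hz hw ⟨by positivity, (div_le_one hN').2 h1⟩

private theorem ladPt_zero (N : ℕ) (z w : ℂ) : ladPt N z w 0 = z := by simp [ladPt]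

private theorem ladPt_last {N : ℕ} (hN : 0 < N) (z w : ℂ) : ladPt N z w N = w := by
  have hN' : (N : ℝ) ≠ 0 := by exact_mod_cast hN.ne'
  simp [ladPt, div_self hN']

private theorem ladPt_self (N : ℕ) (z : ℂ) (i : ℕ) : ladPt N z z i = z := by simp [ladPt]

private theorem ladPt_succ {N : ℕ} (hN : 0 < N) (z w : ℂ) (i : ℕ) :
    dist (ladPt N z w i) (ladPt N z w (i + 1)) = dist w z / N := by
  have hN' : (0 : ℝ) < N := by exact_mod_cast hN
  rw [dist_eq_norm, dist_eq_norm]
  have : ladPt N z w i - ladPt N z w (i + 1) = (-(1 / (N : ℝ))) • (w - z) := by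
    unfold ladPt
    push_cast
    rw [add_sub_add_left_eq_sub, ← sub_smul]
    congr 1
    field_simp
    ring
  rw [this, norm_smul, Real.norm_eq_abs, abs_neg, abs_of_nonneg (by positivity)]
  ring

private theorem ladPt_two {N : ℕ} (hN : 0 < N) (z w w' : ℂ) {i : ℕ} (hi : i ≤ N) :
    dist (ladPt N z w i) (ladPt N z w' i) ≤ dist w w' := by
  have hN' : (0 : ℝ) < N := by exact_mod_cast hN
  have h1 : (i : ℝ) ≤ N := by exact_mod_cast hi
  rw [dist_eq_norm, dist_eq_norm]
  have : ladPt N z w i - ladPt N z w' i = ((i : ℝ) / N) • (w - w') := by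
    unfold ladPt
    rw [add_sub_add_left_eq_sub, ← smul_sub]
    congr 1
    ring
  rw [this, norm_smul, Real.norm_eq_abs, abs_of_nonneg (by positivity)]
  exact mul_le_of_le_one_left (norm_nonneg _) ((div_le_one hN').2 h1)

/-- uniform continuity of the inverse of an injective map on a compact set -/
private theorem lad_inv {φ : ℂ → M} {z0 : ℂ} {ρ : ℝ} (hc : ContinuousOn φ (Metric.closedBall z0 ρ))
    (hi : Set.InjOn φ (Metric.closedBall z0 ρ)) {δ : ℝ} (hδ : 0 < δ) : ∃ η : ℝ, 0 < η ∧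
      ∀ u ∈ Metric.closedBall z0 ρ, ∀ v ∈ Metric.closedBall z0 ρ, dist (φ u) (φ v) < η →
        dist u v < δ := by
  set K : Set (ℂ × ℂ) := (Metric.closedBall z0 ρ ×ˢ Metric.closedBall z0 ρ) ∩
    {x | δ ≤ dist x.1 x.2} with hK
  have hKc : IsCompact K := by
    apply ((isCompact_closedBall z0 ρ).prod (isCompact_closedBall z0 ρ)).inter_right
    exact isClosed_le continuous_const (continuous_fst.dist continuous_snd)
  by_cases hne : K.Nonempty
  · have hf : ContinuousOn (fun x : ℂ × ℂ => dist (φ x.1) (φ x.2)) K := by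
      exact continuous_dist.comp_continuousOn
        ((hc.comp continuousOn_fst (fun x hx => hx.1.1)).prodMk
          (hc.comp continuousOn_snd (fun x hx => hx.1.2)))
    obtain ⟨x, hx, hmin⟩ := hKc.exists_isMinOn hne hf
    refine ⟨dist (φ x.1) (φ x.2), ?_, ?_⟩
    · rw [dist_pos]
      intro h
      have h1 := hi hx.1.1 hx.1.2 h
      have h2 : δ ≤ dist x.1 x.2 := hx.2
      rw [h1, dist_self] at h2
      linarith
    · intro u hu v hv h
      by_contra hge
      have hmem : (u, v) ∈ K := ⟨⟨hu, hv⟩, not_lt.1 hge⟩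
      have : dist (φ x.1) (φ x.2) ≤ dist (φ u) (φ v) := hmin hmem
      linarith
  · refine ⟨1, one_pos, ?_⟩
    intro u hu v hv _
    by_contra hge
    exact hne ⟨(u, v), ⟨hu, hv⟩, not_lt.1 hge⟩

/-- Row LAD. For `a = φ w` let `s a` be the end of the lift, starting at `f`, of the chain
`φ (z + (i/N)(w - z))`, `i = 1..N` (`p = φ z`), `N` large (uniform continuity of `φ` on the closed
disc).  For `b` near `a` compare the two chains `q i`, `q' i` : `s' i = ext (s i) (q' i)` by
induction (`tri` twice).  `φ⁻¹` is uniformly continuous on the image of the closed disc. -/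
theorem ladder {c : PC M} (hc : IsPC κ c) {z0 : ℂ} {ρ : ℝ}
    (hsub : Metric.closedBall z0 ρ ⊆ c.U) {ε : ℝ} (hε : 0 < ε) {F : Type} {q : F → M}
    {ext : F → M → F} (hF : IsCov ε q ext) {p : M} (hp : p ∈ c.φ '' Metric.ball z0 ρ) {f : F}
    (hf : q f = p) : ∃ s : M → F, s p = f ∧ (∀ a ∈ c.φ '' Metric.ball z0 ρ, q (s a) = a) ∧
      ∃ η : ℝ, 0 < η ∧ ∀ a ∈ c.φ '' Metric.ball z0 ρ, ∀ b ∈ c.φ '' Metric.ball z0 ρ,
        dist a b < η → s b = ext (s a) b := by
  have hcont : ContinuousOn c.φ (Metric.closedBall z0 ρ) := hc.cont.mono hsub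
  have hinj : Set.InjOn c.φ (Metric.closedBall z0 ρ) := hc.inj.mono hsub
  have hbc : Metric.ball z0 ρ ⊆ Metric.closedBall z0 ρ := Metric.ball_subset_closedBall
  have hinjb : Set.InjOn c.φ (Metric.ball z0 ρ) := hinj.mono hbc
  obtain ⟨z, hz, hzp⟩ := hp
  have huc := (isCompact_closedBall z0 ρ).uniformContinuousOn_of_continuous hcont
  rw [Metric.uniformContinuousOn_iff] at huc
  obtain ⟨δ, hδ, hd⟩ := huc (ε / 4) (by linarith)
  have hρ : 0 < ρ := by
    have := Metric.mem_ball.1 hz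
    exact lt_of_le_of_lt dist_nonneg this
  obtain ⟨N, hN⟩ := exists_nat_gt (2 * ρ / δ)
  have hN0 : 0 < N := by
    have h1 : (0 : ℝ) < N := lt_trans (by positivity) hN
    exact_mod_cast h1
  have hN' : (0 : ℝ) < N := by exact_mod_cast hN0
  obtain ⟨η, hη, hinv⟩ := lad_inv hcont hinj hδ
  -- distances
  have hstep : ∀ w ∈ Metric.ball z0 ρ, ∀ i : ℕ, i + 1 ≤ N →
      dist (c.φ (ladPt N z w i)) (c.φ (ladPt N z w (i + 1))) < ε / 4 := by
    intro w hw i hi
    apply hd _ (hbc (ladPt_mem hN0 hz hw (by omega))) _ (hbc (ladPt_mem hN0 hz hw hi))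
    rw [ladPt_succ hN0]
    have h1 : dist w z < 2 * ρ := by
      have h2 := Metric.mem_ball.1 hw
      have h3 := Metric.mem_ball'.1 hz
      have := dist_triangle w z0 z
      linarith
    rw [div_lt_iff₀ hN']
    have h4 : 2 * ρ < N * δ := by rwa [div_lt_iff₀ hδ] at hN
    linarith
  have hqc : ∀ w ∈ Metric.ball z0 ρ, ∀ i : ℕ, i ≤ N →
      q (ladCh ext c.φ N z w f i) = c.φ (ladPt N z w i) := by
    intro w hw i
    induction i with
    | zero => intro _; rw [ladPt_zero, hzp]; exact hf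
    | succ i ih =>
      intro hi
      have h1 := ih (by omega)
      apply hF.p_ext
      rw [h1]
      exact (hstep w hw i hi).trans (by linarith)
  have hself : ∀ i : ℕ, ladCh ext c.φ N z z f i = f := by
    intro i
    induction i with
    | zero => rfl
    | succ i ih =>
      show ext (ladCh ext c.φ N z z f i) (c.φ (ladPt N z z (i + 1))) = f
      rw [ih, ladPt_self, hzp, ← hf]
      exact hF.stay f
  have hlad : ∀ w ∈ Metric.ball z0 ρ, ∀ w' ∈ Metric.ball z0 ρ, dist w w' < δ → ∀ i : ℕ, i ≤ N →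
      ladCh ext c.φ N z w' f i = ext (ladCh ext c.φ N z w f i) (c.φ (ladPt N z w' i)) := by
    intro w hw w' hw' hww i
    have hclose : ∀ j : ℕ, j ≤ N → dist (c.φ (ladPt N z w j)) (c.φ (ladPt N z w' j)) < ε / 4 := by
      intro j hj
      apply hd _ (hbc (ladPt_mem hN0 hz hw hj)) _ (hbc (ladPt_mem hN0 hz hw' hj))
      exact (ladPt_two hN0 z w w' hj).trans_lt hww
    induction i with
    | zero =>
      intro _
      show f = ext f (c.φ (ladPt N z w' 0))
      rw [ladPt_zero, hzp, ← hf]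
      exact (hF.stay f).symm
    | succ i ih =>
      intro hi
      have hi' : i ≤ N := by omega
      have h1 := ih hi'
      have hq := hqc w hw i hi'
      have c1 := hclose i hi'
      have c2 := hclose (i + 1) hi
      have s1 := hstep w hw i hi
      have s2 := hstep w' hw' i hi
      have c3 : dist (c.φ (ladPt N z w i)) (c.φ (ladPt N z w' (i + 1))) < ε := by
        have := dist_triangle (c.φ (ladPt N z w i)) (c.φ (ladPt N z w (i + 1)))
          (c.φ (ladPt N z w' (i + 1)))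
        linarith
      show ext (ladCh ext c.φ N z w' f i) (c.φ (ladPt N z w' (i + 1))) =
        ext (ext (ladCh ext c.φ N z w f i) (c.φ (ladPt N z w (i + 1))))
          (c.φ (ladPt N z w' (i + 1)))
      rw [h1, hF.tri _ _ _ (by rw [hq]; linarith) (by linarith) (by rw [hq]; exact c3),
        hF.tri _ _ _ (by rw [hq]; linarith) (by linarith) (by rw [hq]; exact c3)]
  -- the section
  set g : M → ℂ := Function.invFunOn c.φ (Metric.ball z0 ρ) with hg
  have hg1 : ∀ a ∈ c.φ '' Metric.ball z0 ρ, g a ∈ Metric.ball z0 ρ ∧ c.φ (g a) = a := by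
    intro a ha
    exact ⟨Function.invFunOn_mem ha, Function.invFunOn_eq ha⟩
  refine ⟨fun a => ladCh ext c.φ N z (g a) f N, ?_, ?_, η, hη, ?_⟩
  · have h1 := hg1 p ⟨z, hz, hzp⟩
    have h2 : g p = z := hinjb h1.1 hz (h1.2.trans hzp.symm)
    show ladCh ext c.φ N z (g p) f N = f
    rw [h2]
    exact hself N
  · intro a ha
    have h1 := hg1 a ha
    show q (ladCh ext c.φ N z (g a) f N) = a
    rw [hqc _ h1.1 N le_rfl, ladPt_last hN0, h1.2]
  · intro a ha b hb hab
    have h1 := hg1 a ha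
    have h2 := hg1 b hb
    have h3 : dist (g a) (g b) < δ := by
      apply hinv _ (hbc h1.1) _ (hbc h2.1)
      rw [h1.2, h2.2]
      exact hab
    show ladCh ext c.φ N z (g b) f N = ext (ladCh ext c.φ N z (g a) f N) b
    rw [hlad _ h1.1 _ h2.1 h3 N le_rfl, ladPt_last hN0, h2.2]

/-- Row LEB. Lebesgue number of a covering by discs -/
theorem lebesgue [CompactSpace M] (hA : IsAtlas κ A) : ∃ ε : ℝ, 0 < ε ∧ ∀ p : M,
    ∃ c ∈ A, ∃ (z : ℂ) (ρ : ℝ), 0 < ρ ∧ Metric.closedBall z ρ ⊆ c.U ∧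
      Metric.ball p (4 * ε) ⊆ c.φ '' Metric.ball z ρ := by
  obtain ⟨ρ, hρ, B, h⟩ := hA.unif
  choose c hcA z hz hsub hB using h
  have ho : ∀ y : M, IsOpen ((c y).φ '' Metric.ball (z y) ρ) := fun y =>
    (hA.pc _ (hcA y)).opn _ (Metric.ball_subset_closedBall.trans (hsub y)) Metric.isOpen_ball
  have hcov : (Set.univ : Set M) ⊆ ⋃ y : M, (c y).φ '' Metric.ball (z y) ρ := by
    intro y _
    exact Set.mem_iUnion.2 ⟨y, z y, Metric.mem_ball_self hρ, hz y⟩
  obtain ⟨δ, hδ, hleb⟩ := lebesgue_number_lemma_of_metric isCompact_univ ho hcov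
  refine ⟨δ / 4, by positivity, ?_⟩
  intro p
  obtain ⟨y, hy⟩ := hleb p (Set.mem_univ p)
  refine ⟨c y, hcA y, z y, ρ, hρ, hsub y, ?_⟩
  rw [mul_div_cancel₀ _ (by norm_num : (4 : ℝ) ≠ 0)]
  exact hy

end F10U
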