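import Pool.Agent.Lib.MP_f10cd3_gt.U.Defs

/-! Row U1: construction of the universal covering at the scale `ε`.

`X` = chains from `x0` (as reversed lists) modulo having the same end in every covering at the
scale `ε`. -/

set_option autoImplicit false

namespace F10U

open MPf10cd3 F10G F10S

variable {M : Type} [MetricSpace M]

/-- the end of the chain -/
def u1pt (x0 : M) : List M → M
  | [] => x0
  | a :: _ => a

/-- chains of step `< ε` -/
def u1Ch (ε : ℝ) (x0 : M) : List M → Prop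
  | [] => True
  | a :: l => dist (u1pt x0 l) a < ε ∧ u1Ch ε x0 l

/-- the end of the lift of a chain -/
def u1fd {F : Type} (e : F → M → F) (f0 : F) : List M → F
  | [] => f0
  | a :: l => e (u1fd e f0 l) a

theorem u1fd_q {ε : ℝ} {x0 : M} {F : Type} {q : F → M} {e : F → M → F} (h : IsCov ε q e) {f0 : F}
    (h0 : q f0 = x0) : ∀ l : List M, u1Ch ε x0 l → q (u1fd e f0 l) = u1pt x0 l
  | [], _ => h0
  | a :: l, hl => h.p_ext _ _ (by rw [u1fd_q h h0 l hl.2]; exact hl.1)

theorem u1_triv (ε : ℝ) : IsCov ε (fun x : M => x) (fun _ a : M => a) where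
  p_ext _ _ _ := rfl
  stay _ := rfl
  tri _ _ _ _ _ _ := rfl

theorem u1fd_triv (x0 : M) : ∀ l : List M, u1fd (fun _ a : M => a) x0 l = u1pt x0 l
  | [] => rfl
  | _ :: _ => rfl

/-- the same end in every covering -/
def u1Setoid (ε : ℝ) (x0 : M) : Setoid {l : List M // u1Ch ε x0 l} where
  r l l' := ∀ (F : Type) (q : F → M) (e : F → M → F), IsCov ε q e → ∀ f0 : F, q f0 = x0 →
    u1fd e f0 l.1 = u1fd e f0 l'.1
  iseqv :=
    { refl := fun _ _ _ _ _ _ _ => rfl
      symm := fun h F q e hc f0 h0 => (h F q e hc f0 h0).symm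
      trans := fun h h' F q e hc f0 h0 => (h F q e hc f0 h0).trans (h' F q e hc f0 h0) }

/-- the covering space -/
def U1X (ε : ℝ) (x0 : M) : Type := Quotient (u1Setoid ε x0)

theorem u1pt_eq {ε : ℝ} {x0 : M} {l l' : {l : List M // u1Ch ε x0 l}}
    (h : (u1Setoid ε x0).r l l') : u1pt x0 l.1 = u1pt x0 l'.1 := by
  have h1 := h M (fun x => x) (fun _ a => a) (u1_triv ε) x0 rfl
  rwa [u1fd_triv, u1fd_triv] at h1

/-- the projection -/
def u1p (ε : ℝ) (x0 : M) : U1X ε x0 → M :=
  Quotient.lift (fun l => u1pt x0 l.1) fun _ _ h => u1pt_eq h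

open scoped Classical in
/-- extension of chains -/
noncomputable def u1extR (ε : ℝ) (x0 : M) (a : M) (l : {l : List M // u1Ch ε x0 l}) : U1X ε x0 :=
  if h : dist (u1pt x0 l.1) a < ε then Quotient.mk (u1Setoid ε x0) ⟨a :: l.1, ⟨h, l.2⟩⟩
  else Quotient.mk (u1Setoid ε x0) l

theorem u1extR_pos {ε : ℝ} {x0 : M} {a : M} {l : {l : List M // u1Ch ε x0 l}}
    (h : dist (u1pt x0 l.1) a < ε) :
    u1extR ε x0 a l = Quotient.mk (u1Setoid ε x0) ⟨a :: l.1, ⟨h, l.2⟩⟩ := by
  unfold u1extR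
  rw [dif_pos h]

theorem u1extR_neg {ε : ℝ} {x0 : M} {a : M} {l : {l : List M // u1Ch ε x0 l}}
    (h : ¬ dist (u1pt x0 l.1) a < ε) :
    u1extR ε x0 a l = Quotient.mk (u1Setoid ε x0) l := by
  unfold u1extR
  rw [dif_neg h]

/-- extension -/
noncomputable def u1ext (ε : ℝ) (x0 : M) (x : U1X ε x0) (a : M) : U1X ε x0 :=
  Quotient.lift (u1extR ε x0 a) (fun l l' h => by
    have h1 : u1pt x0 l.1 = u1pt x0 l'.1 := u1pt_eq h
    by_cases h2 : dist (u1pt x0 l.1) a < ε
    · have h3 : dist (u1pt x0 l'.1) a < ε := by rw [← h1]; exact h2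
      rw [u1extR_pos h2, u1extR_pos h3]
      refine Quotient.sound fun F q e hc f0 h0 => ?_
      show e (u1fd e f0 l.1) a = e (u1fd e f0 l'.1) a
      rw [h F q e hc f0 h0]
    · have h3 : ¬ dist (u1pt x0 l'.1) a < ε := by rw [← h1]; exact h2
      rw [u1extR_neg h2, u1extR_neg h3]
      exact Quotient.sound h) x

theorem u1ext_mk {ε : ℝ} {x0 : M} {a : M} {l : {l : List M // u1Ch ε x0 l}}
    (h : dist (u1pt x0 l.1) a < ε) :
    u1ext ε x0 (Quotient.mk (u1Setoid ε x0) l) a =
      Quotient.mk (u1Setoid ε x0) ⟨a :: l.1, ⟨h, l.2⟩⟩ := u1extR_pos h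

theorem u1_cov {ε : ℝ} (hε : 0 < ε) (x0 : M) : IsCov ε (u1p ε x0) (u1ext ε x0) where
  p_ext x a := by
    induction x using Quotient.inductionOn with
    | _ l =>
      intro h
      have h' : dist (u1pt x0 l.1) a < ε := h
      rw [u1ext_mk h']
      rfl
  stay x := by
    induction x using Quotient.inductionOn with
    | _ l =>
      have h : dist (u1pt x0 l.1) (u1pt x0 l.1) < ε := by rw [dist_self]; exact hε
      show u1ext ε x0 (Quotient.mk (u1Setoid ε x0) l) (u1pt x0 l.1) = _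
      rw [u1ext_mk h]
      refine Quotient.sound fun F q e hc f0 h0 => ?_
      show e (u1fd e f0 l.1) (u1pt x0 l.1) = u1fd e f0 l.1
      rw [← u1fd_q hc h0 l.1 l.2]
      exact hc.stay _
  tri x a b := by
    induction x using Quotient.inductionOn with
    | _ l =>
      intro h1 h2 h3
      have h1' : dist (u1pt x0 l.1) a < ε := h1
      have h3' : dist (u1pt x0 l.1) b < ε := h3
      rw [u1ext_mk h1', u1ext_mk h3']
      have h4 : dist (u1pt x0 (⟨a :: l.1, ⟨h1', l.2⟩⟩ : {l : List M // u1Ch ε x0 l}).1) b < ε := h2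
      rw [u1ext_mk h4]
      refine Quotient.sound fun F q e hc f0 h0 => ?_
      show e (e (u1fd e f0 l.1) a) b = e (u1fd e f0 l.1) b
      refine hc.tri _ _ _ ?_ h2 ?_
      · rw [u1fd_q hc h0 l.1 l.2]
        exact h1'
      · rw [u1fd_q hc h0 l.1 l.2]
        exact h3'

theorem u1_ind {ε : ℝ} (x0 : M) (P : U1X ε x0 → Prop)
    (hb : P (Quotient.mk (u1Setoid ε x0) ⟨[], trivial⟩))
    (hs : ∀ x a, dist (u1p ε x0 x) a < ε → P x → P (u1ext ε x0 x a)) :
    ∀ (l : List M) (hl : u1Ch ε x0 l), P (Quotient.mk (u1Setoid ε x0) ⟨l, hl⟩)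
  | [], _ => hb
  | a :: l, hl => by
    have h1 := u1_ind x0 P hb hs l hl.2
    have h2 := hs (Quotient.mk (u1Setoid ε x0) ⟨l, hl.2⟩) a hl.1 h1
    have h3 : dist (u1pt x0 (⟨l, hl.2⟩ : {l : List M // u1Ch ε x0 l}).1) a < ε := hl.1
    rw [u1ext_mk h3] at h2
    exact h2

/-- `X` = lists `l = [a1, ..., an]` such that consecutive points of `x0 :: l` have distance `< ε`,
modulo the equivalence relation generated by
`l ++ a :: b :: m ~ l ++ b :: m` if `dist (last (x0 :: l)) b < ε` and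
`l ++ last (x0 :: l) :: m ~ l ++ m`; `p` is the last point, `ext [l] a = [l ++ [a]]` (if
`dist (p l) a < ε`, else `[l]`), `b = []`, `Ψ [l] = foldl e f0 l`. -/
theorem exists_univ {ε : ℝ} (hε : 0 < ε) (x0 : M) :
    ∃ (X : Type) (p : X → M) (ext : X → M → X) (b : X), IsUniv ε p ext b ∧ p b = x0 := by
  refine ⟨U1X ε x0, u1p ε x0, u1ext ε x0, Quotient.mk (u1Setoid ε x0) ⟨[], trivial⟩,
    { cov := u1_cov hε x0, ind := ?_, up := ?_ }, rfl⟩
  · intro P hb hs x
    induction x using Quotient.inductionOn with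
    | _ l => exact u1_ind x0 P hb hs l.1 l.2
  · intro F q e hc f0 h0
    have h0' : q f0 = x0 := h0
    refine ⟨Quotient.lift (fun l => u1fd e f0 l.1) fun l l' h => h F q e hc f0 h0', rfl, ?_, ?_⟩
    · intro x
      induction x using Quotient.inductionOn with
      | _ l => exact u1fd_q hc h0' l.1 l.2
    · intro x a
      induction x using Quotient.inductionOn with
      | _ l =>
        intro h
        have h' : dist (u1pt x0 l.1) a < ε := h
        rw [u1ext_mk h']
        rfl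

end F10U
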